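import Pool.Agent.P8H67.TU.Stm3

/-!
Package RSP of project TU (helper67).
-/

set_option autoImplicit false

namespace Pool.Agent.P8H93.TU

open Pool.Agent.P8H67.TU Module

variable {W : Type} [NormedAddCommGroup W] [NormedSpace ℝ W] [FiniteDimensional ℝ W]

lemma exp_hasSum (a : W →L[ℝ] W) (u : W) :
    HasSum (fun n : ℕ => ((n.factorial : ℝ)⁻¹) • (a ^ n) u) ((NormedSpace.exp a : W →L[ℝ] W) u) := by
  have : CompleteSpace W := FiniteDimensional.complete ℝ W
  have h1 := NormedSpace.exp_series_hasSum_exp' (𝕂 := ℝ) a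
  exact h1.mapL (ContinuousLinearMap.apply ℝ W u)

lemma exp_sq (a : W →L[ℝ] W) (u : W) (h : a (a u) = 0) :
    (NormedSpace.exp a : W →L[ℝ] W) u = u + a u := by
  have h1 := exp_hasSum a u
  have h2 : HasSum (fun n : ℕ => ((n.factorial : ℝ)⁻¹) • (a ^ n) u)
      (∑ n ∈ Finset.range 2, ((n.factorial : ℝ)⁻¹) • (a ^ n) u) := by
    refine hasSum_sum_of_ne_finset_zero fun n hn => ?_
    rw [Finset.mem_range, not_lt] at hn
    obtain ⟨m, rfl⟩ := Nat.exists_eq_add_of_le' hn
    have h3 : (a ^ (m + 2)) u = (a ^ m) (a (a u)) := by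
      rw [pow_add, sq]
      rfl
    rw [h3, h, map_zero, smul_zero]
  have h3 := h1.unique h2
  rw [h3, Finset.sum_range_succ, Finset.sum_range_one]
  simp

lemma exp_eig (a : W →L[ℝ] W) (u : W) (μ : ℝ) (h : a u = μ • u) :
    (NormedSpace.exp a : W →L[ℝ] W) u = Real.exp μ • u := by
  have h1 := exp_hasSum a u
  have h4 : ∀ n : ℕ, (a ^ n) u = μ ^ n • u := by
    intro n
    induction n with
    | zero => simp
    | succ n ih =>
      have h5 : (a ^ (n + 1)) u = (a ^ n) (a u) := by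
        rw [pow_succ]
        rfl
      rw [h5, h, map_smul, ih, smul_smul, pow_succ, mul_comm]
  have h2 := (NormedSpace.exp_series_hasSum_exp' (𝕂 := ℝ) μ).smul_const u
  rw [← Real.exp_eq_exp_ℝ] at h2
  refine h1.unique ?_
  convert h2 using 2 with n
  rw [h4, smul_smul, smul_eq_mul]

lemma exp_comm (a : W →L[ℝ] W) (u : W) :
    (NormedSpace.exp a : W →L[ℝ] W) (a u) = a ((NormedSpace.exp a : W →L[ℝ] W) u) := by
  have h1 : Commute a (NormedSpace.exp a) := (Commute.refl a).exp_right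
  exact (DFunLike.congr_fun h1.eq u).symm

lemma case_ne (a : W →L[ℝ] W) (μ : ℝ) (hμ : μ ≠ 0) : ∀ (k : ℕ) (w : W),
    (((a : W →ₗ[ℝ] W) - μ • 1) ^ k) w = 0 → (NormedSpace.exp a : W →L[ℝ] W) w = w → w = 0 := by
  intro k
  induction k with
  | zero =>
    intro w h _
    simpa using h
  | succ k ih =>
    intro w h hw
    have h1 : (((a : W →ₗ[ℝ] W) - μ • 1) ^ k) (a w - μ • w) = 0 := by
      rw [pow_succ] at h
      exact h
    have h2 : a w - μ • w = 0 := by
      refine ih _ h1 ?_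
      rw [map_sub, map_smul, exp_comm, hw]
    have h3 := exp_eig a w μ (sub_eq_zero.1 h2)
    rw [hw] at h3
    have h4 : (Real.exp μ - 1) • w = 0 := by
      rw [sub_smul, one_smul, ← h3, sub_self]
    refine (smul_eq_zero.1 h4).resolve_left ?_
    intro h5
    exact hμ ((Real.exp_eq_one_iff μ).1 (sub_eq_zero.1 h5))

lemma case_zero (a : W →L[ℝ] W) : ∀ (k : ℕ) (w : W),
    ((a : W →ₗ[ℝ] W) ^ k) w = 0 → (NormedSpace.exp a : W →L[ℝ] W) w = w → a w = 0 := by
  intro k
  induction k with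
  | zero =>
    intro w h _
    have : w = 0 := by simpa using h
    rw [this, map_zero]
  | succ k ih =>
    intro w h hw
    have h1 : ((a : W →ₗ[ℝ] W) ^ k) (a w) = 0 := by
      rw [pow_succ] at h
      exact h
    have h2 : a (a w) = 0 := by
      refine ih _ h1 ?_
      rw [exp_comm, hw]
    have h3 := exp_sq a w h2
    rw [hw] at h3
    exact left_eq_add.1 h3

theorem rsp : S_RSP := by
  intro W _ _ _
  refine ⟨?_, ?_, ?_⟩
  · intro a b hab ha hb
    have hc : Commute (a : W →ₗ[ℝ] W) (b : W →ₗ[ℝ] W) := by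
      ext w
      exact DFunLike.congr_fun hab w
    have h1 := Module.End.iSup_iInf_maxGenEigenspace_eq_top_of_iSup_maxGenEigenspace_eq_top_of_commute
      (K := ℝ) (M := W) (fun i : Bool => cond i (a : W →ₗ[ℝ] W) (b : W →ₗ[ℝ] W)) (by
        intro i j hij
        cases i <;> cases j
        · exact absurd rfl hij
        · exact hc.symm
        · exact hc
        · exact absurd rfl hij) (by
        intro i
        cases i
        · exact hb
        · exact ha)
    unfold RealSpec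
    rw [eq_top_iff, ← h1]
    refine iSup_le fun χ => ?_
    refine le_trans ?_ (le_iSup _ (χ true + χ false))
    have h2 := Module.End.genEigenspace_inf_le_add (a : W →ₗ[ℝ] W) (b : W →ₗ[ℝ] W) (χ true) (χ false) ⊤ ⊤ hc
    refine le_trans (le_inf ?_ ?_) (h2.trans (le_of_eq ?_))
    · exact iInf_le (fun i : Bool => Module.End.maxGenEigenspace (cond i (a : W →ₗ[ℝ] W) (b : W →ₗ[ℝ] W)) (χ i)) true
    · exact iInf_le (fun i : Bool => Module.End.maxGenEigenspace (cond i (a : W →ₗ[ℝ] W) (b : W →ₗ[ℝ] W)) (χ i)) false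
    · rfl
  · intro t a ha
    unfold RealSpec at *
    rw [eq_top_iff, ← ha]
    refine iSup_le fun μ => ?_
    refine le_trans ?_ (le_iSup _ (t * μ))
    exact Module.End.genEigenspace_le_smul (a : W →ₗ[ℝ] W) μ t ⊤
  · intro a q ha hq
    set K : Submodule ℝ W := LinearMap.ker (((NormedSpace.exp a : W →L[ℝ] W) - 1 : W →L[ℝ] W) : W →ₗ[ℝ] W) with hK
    have hmem : ∀ w, w ∈ K ↔ (NormedSpace.exp a : W →L[ℝ] W) w = w := by
      intro w
      rw [hK, LinearMap.mem_ker]
      exact sub_eq_zero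
    have hinv : ∀ x ∈ K, (a : W →ₗ[ℝ] W) x ∈ K := by
      intro x hx
      rw [hmem] at hx ⊢
      change (NormedSpace.exp a : W →L[ℝ] W) (a x) = a x
      rw [exp_comm, hx]
    have h1 := Submodule.inf_iSup_genEigenspace (f := (a : W →ₗ[ℝ] W)) hinv ⊤
    have h2 : (⨆ μ : ℝ, Module.End.genEigenspace (a : W →ₗ[ℝ] W) μ ⊤) = ⊤ := ha
    rw [h2, inf_top_eq] at h1
    have h3 : K ≤ LinearMap.ker (a : W →ₗ[ℝ] W) := by
      rw [h1]
      refine iSup_le fun μ => ?_
      rintro w ⟨hw1, hw2⟩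
      have hw3 := (hmem w).1 hw1
      obtain ⟨k, hk⟩ := (Module.End.mem_maxGenEigenspace (a : W →ₗ[ℝ] W) μ w).1 hw2
      rw [LinearMap.mem_ker]
      change a w = 0
      by_cases hμ : μ = 0
      · subst hμ
        rw [zero_smul, sub_zero] at hk
        exact case_zero a k w hk hw3
      · rw [case_ne a μ hμ k w hk hw3, map_zero]
    exact h3 ((hmem q).2 hq)

end Pool.Agent.P8H93.TU
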